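import Pool.Agent.Lib.MP_45f16c_ag.EX.All

set_option autoImplicit false

open MeasureTheory Pool.Agent.Lib.MP_45f16c_ag

/-- There is a number `N` such that for all `n ≥ 2` and all `d ≥ 2 n + 1` with `d ≥ N`, for
Lebesgue almost every coefficient vector, the degree `d` hypersurface in projective `(n+1)`-space
is smooth and Brody hyperbolic. -/
theorem Pool.Agent.Results.MP_45f16c_ag.ExactRange.result :
    ∃ N : ℕ, ∀ n d : ℕ, 2 ≤ n → 2 * n + 1 ≤ d → N ≤ d →
      ∀ᵐ c : Mon (n + 2) d → ℂ, IsSmooth (form c) ∧ IsBrody (form c) := by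
  obtain ⟨n₀, h₀⟩ := EX.mainEX
  obtain ⟨K, hK⟩ := Pool.Agent.Lib.MP_45f16c_ag.main
  have hl : ∀ m : ℕ, 0 ≤ Real.log m := fun m => Real.log_natCast_nonneg m
  refine ⟨⌈|K| * n₀ * Real.log n₀⌉₊, fun n d hn hd hN => ?_⟩
  rcases le_total n₀ n with h | h
  · exact h₀ n d h hd
  · refine hK n d hn ?_
    have h3 : (n : ℝ) ≤ n₀ := by exact_mod_cast h
    have h4 : (0 : ℝ) < n := by exact_mod_cast (by omega : 0 < n)
    have h5 : K * n * Real.log n ≤ |K| * n₀ * Real.log n₀ := by
      have := hl n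
      have := le_abs_self K
      gcongr
    exact h5.trans (Nat.ceil_le.1 hN)
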