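import Pool.Agent.Lib.MP_45f16c_ag.VG.Final

set_option autoImplicit false

/-- Kobayashi's conjecture for very generic hypersurfaces of degree larger than
`800000 * (2 n + 2) ^ 2 * (ceiling of log_2 (2 n + 2)) ^ 2`. -/
theorem Pool.Agent.Results.MP_45f16c_ag.VeryGeneric.result :
  ∀ n : ℕ, 2 ≤ n → ∀ d : ℕ, 800000 * (2 * n + 2) ^ 2 * Nat.clog 2 (2 * n + 2) ^ 2 < d →
    ∃ Q : ℕ → MvPolynomial ((Fin (n + 2)) →₀ ℕ) ℂ,
      (∀ k, ∃ P₀ : MvPolynomial (Fin (n + 2)) ℂ, P₀.IsHomogeneous d ∧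
          MvPolynomial.eval (fun m => P₀.coeff m) (Q k) ≠ 0) ∧
      ∀ P : MvPolynomial (Fin (n + 2)) ℂ, P.IsHomogeneous d →
        (∀ k, MvPolynomial.eval (fun m => P.coeff m) (Q k) ≠ 0) →
        (∀ x : Fin (n + 2) → ℂ, x ≠ 0 → MvPolynomial.eval x P = 0 →
            ∃ i, MvPolynomial.eval x (MvPolynomial.pderiv i P) ≠ 0) →
        ∀ f : Fin (n + 2) → ℂ → ℂ, (∀ i, Differentiable ℂ (f i)) →
          (∀ z, ∃ i, f i z ≠ 0) →
          (∀ z, MvPolynomial.eval (fun i => f i z) P = 0) →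
          ∀ z w : ℂ, ∀ i j : Fin (n + 2), f i z * f j w = f j z * f i w := by
  intro n hn d hd
  obtain ⟨Q, h1, h2⟩ := Pool.Agent.Lib.MP_45f16c_ag.VG.very_generic n hn d hd
  exact ⟨Q, h1, fun P hP hQ _ => h2 P hP hQ⟩
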